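import Pool.Agent.H418R3.EF.Stmts

set_option autoImplicit false

/-! An abstract construction of cocycles with values in a semidirect product. -/

namespace Pool.Agent.W919.EF

open Pool.Agent.H418R3.EF

/-- The semidirect product of a module `M` and the group `H` acting on it. -/
structure SD (H M : Type) where
  f : M
  h : H

variable {H M : Type}

theorem SD.ext' {a b : SD H M} (h1 : a.f = b.f) (h2 : a.h = b.h) : a = b := by
  cases a; cases b; simp_all

instance [Group H] [AddCommGroup M] [DistribMulAction H M] : Group (SD H M) :=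
  letI : Mul (SD H M) := ⟨fun a b => ⟨a.f + a.h • b.f, a.h * b.h⟩⟩
  letI : One (SD H M) := ⟨⟨0, 1⟩⟩
  letI : Inv (SD H M) := ⟨fun a => ⟨-(a.h⁻¹ • a.f), a.h⁻¹⟩⟩
  Group.ofLeftAxioms
    (fun a b c => SD.ext' (by
      change (a.f + a.h • b.f) + (a.h * b.h) • c.f = a.f + a.h • (b.f + b.h • c.f)
      rw [smul_add, mul_smul, add_assoc]) (mul_assoc _ _ _))
    (fun a => SD.ext' (by
      change (0 : M) + (1 : H) • a.f = a.f
      rw [one_smul, zero_add]) (one_mul _))
    (fun a => SD.ext' (by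
      change -(a.h⁻¹ • a.f) + a.h⁻¹ • a.f = 0
      rw [neg_add_cancel]) (inv_mul_cancel _))

theorem SD.mul_f [Group H] [AddCommGroup M] [DistribMulAction H M] (a b : SD H M) :
    (a * b).f = a.f + a.h • b.f := rfl

theorem SD.mul_h [Group H] [AddCommGroup M] [DistribMulAction H M] (a b : SD H M) :
    (a * b).h = a.h * b.h := rfl

theorem SD.one_f [Group H] [AddCommGroup M] [DistribMulAction H M] :
    (1 : SD H M).f = 0 := rfl

theorem SD.one_h [Group H] [AddCommGroup M] [DistribMulAction H M] :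
    (1 : SD H M).h = 1 := rfl

instance [Countable H] [Countable M] : Countable (SD H M) := by
  have : Function.Injective (fun a : SD H M => (a.f, a.h)) := fun a b h =>
    SD.ext' (congrArg Prod.fst h) (congrArg Prod.snd h)
  exact this.countable

variable {G X : Type} [Group G] [MulAction G X]

open Classical in
/-- the difference -/
noncomputable def dif [Group H] [AddCommGroup M] [DistribMulAction H M] (e : ℕ → X → M) (y x : X)
    (h : H) : ℕ →₀ M :=
  if hf : (Function.support (fun q => e q y - h • e q x)).Finite then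
    Finsupp.ofSupportFinite (fun q => e q y - h • e q x) hf else 0

theorem dif_apply [Group H] [AddCommGroup M] [DistribMulAction H M] (e : ℕ → X → M) (y x : X)
    (h : H) (hf : {q | e q y ≠ h • e q x}.Finite) (q : ℕ) :
    dif e y x h q = e q y - h • e q x := by
  have h' : (Function.support (fun q => e q y - h • e q x)).Finite := by
    convert hf using 1
    ext p
    simp [sub_eq_zero]
  unfold dif
  rw [dif_pos h']
  rfl

open Classical in
/-- the cocycle -/
noncomputable def coc (N : Subgroup G) [Group H] [AddCommGroup M] [DistribMulAction H M]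
    (π : N →* H) (e : ℕ → X → M) (y x : X) : SD H (ℕ →₀ M) :=
  if h : ∃ g : N, (g : G) • x = y then ⟨dif e y x (π h.choose), π h.choose⟩ else 1

theorem coc_eq (N : Subgroup G) [Group H] [AddCommGroup M] [DistribMulAction H M]
    (π : N →* H) (e : ℕ → X → M) {x y : X} (hx : ∀ g : N, (g : G) • x = x → π g = 1)
    (g : N) (hg : (g : G) • x = y) :
    coc N π e y x = ⟨dif e y x (π g), π g⟩ := by
  have h : ∃ g : N, (g : G) • x = y := ⟨g, hg⟩
  have h1 : π h.choose = π g := by
    have h2 := h.choose_spec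
    have h3 : ((g⁻¹ * h.choose : N) : G) • x = x := by
      rw [Subgroup.coe_mul, mul_smul, h2, ← hg, Subgroup.coe_inv, inv_smul_smul]
    have h4 := hx _ h3
    rw [map_mul, map_inv, inv_mul_eq_one] at h4
    exact h4.symm
  unfold coc
  rw [dif_pos h, h1]

theorem hasCoc_abs [Countable G] [MeasurableSpace X]
    (hact : ∀ g : G, Measurable (fun x : X => g • x))
    (P : Set X) (N : Subgroup G) [Group H] [Countable H]
    [AddCommGroup M] [Countable M] [DistribMulAction H M]
    (π : N →* H) (e : ℕ → X → M) (ℓ : X → ℕ)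
    (ha : ∀ x ∈ P, ∀ g : G, g • x ∈ P → g ∈ N)
    (hb : ∀ x ∈ P, ∀ g : N, (g : G) • x = x → π g = 1)
    (hc : ∀ x ∈ P, ∀ g : N, (g : G) • x ∈ P → {q | e q ((g : G) • x) ≠ π g • e q x}.Finite)
    (hd : ∀ x ∈ P, ∀ g : N, (g : G) • x ∈ P → π g = 1 → (∀ q, e q ((g : G) • x) = e q x) →
      ℓ ((g : G) • x) = ℓ x → (g : G) • x = x)
    (he : ∀ q c, MeasurableSet {x | x ∈ P ∧ e q x = c})
    (hl : ∀ k, MeasurableSet {x | x ∈ P ∧ ℓ x = k}) : HasCoc G P := by
  refine ⟨SD H (ℕ →₀ M), inferInstance, inferInstance, fun y x => coc N π e y x, ℓ,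
    ?_, ?_, ?_, hl⟩
  · rintro x hx y hy z hz ⟨g, rfl⟩ ⟨h, rfl⟩
    have hgN : g ∈ N := ha x hx g hy
    have hhN : h ∈ N := ha _ hy h hz
    have e1 := coc_eq N π e (hb x hx) ⟨g, hgN⟩ rfl
    have e2 := coc_eq N π e (hb _ hy) ⟨h, hhN⟩ rfl
    have e3 := coc_eq N π e (y := h • g • x) (hb x hx) ⟨h * g, N.mul_mem hhN hgN⟩ (mul_smul h g x)
    have hm : π ⟨h * g, N.mul_mem hhN hgN⟩ = π ⟨h, hhN⟩ * π ⟨g, hgN⟩ := by
      rw [← map_mul]; rfl
    simp only at e1 e2 e3 ⊢
    rw [e1, e2, e3]
    refine SD.ext' ?_ ?_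
    · rw [SD.mul_f]
      simp only
      have f1 := hc x hx ⟨g, hgN⟩ hy
      have f2 := hc _ hy ⟨h, hhN⟩ hz
      have f3 := hc x hx ⟨h * g, N.mul_mem hhN hgN⟩ (by rw [mul_smul]; exact hz)
      simp only [mul_smul] at f1 f2 f3
      ext q
      rw [Finsupp.add_apply, Finsupp.smul_apply, dif_apply e _ _ _ f3, dif_apply e _ _ _ f1,
        dif_apply e _ _ _ f2, hm, mul_smul, smul_sub]
      abel
    · rw [SD.mul_h]
      exact hm
  · rintro x hx y hy ⟨g, rfl⟩ h1 h2
    have hgN : g ∈ N := ha x hx g hy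
    have e1 := coc_eq N π e (hb x hx) ⟨g, hgN⟩ rfl
    simp only at e1 h1
    rw [e1] at h1
    have h3 : π ⟨g, hgN⟩ = 1 := congrArg SD.h h1
    have h4 : dif e (g • x) x (π ⟨g, hgN⟩) = 0 := congrArg SD.f h1
    have f1 := hc x hx ⟨g, hgN⟩ hy
    refine (hd x hx ⟨g, hgN⟩ hy h3 (fun q => ?_) h2.symm).symm
    have h5 := dif_apply e _ _ _ f1 q
    simp only at h5
    rw [h4, h3, one_smul] at h5
    exact (sub_eq_zero.1 h5.symm)
  · intro g γ
    by_cases hgN : g ∈ N
    · have hset : {x | x ∈ P ∧ g • x ∈ P ∧ coc N π e (g • x) x = γ} =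
          {x | π ⟨g, hgN⟩ = γ.h} ∩ ⋂ q : ℕ, ⋃ c : M, {x | x ∈ P ∧ e q x = c} ∩
            (fun x => g • x) ⁻¹' {x | x ∈ P ∧ e q x = γ.f q + π ⟨g, hgN⟩ • c} := by
        ext x
        simp only [Set.mem_ofPred_eq, Set.mem_inter_iff, Set.mem_preimage, Set.mem_iInter,
          Set.mem_iUnion]
        constructor
        · rintro ⟨hx, hgx, h1⟩
          rw [coc_eq N π e (hb x hx) ⟨g, hgN⟩ rfl] at h1
          have h3 : π ⟨g, hgN⟩ = γ.h := congrArg SD.h h1
          have h4 : dif e (g • x) x (π ⟨g, hgN⟩) = γ.f := congrArg SD.f h1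
          refine ⟨h3, fun q => ⟨e q x, ⟨hx, rfl⟩, hgx, ?_⟩⟩
          have h5 := dif_apply e _ _ _ (hc x hx ⟨g, hgN⟩ hgx) q
          simp only at h5
          rw [h4] at h5
          rw [h5]
          abel
        · rintro ⟨h3, h4⟩
          obtain ⟨c0, ⟨hx, _⟩, hgx, _⟩ := h4 0
          refine ⟨hx, hgx, ?_⟩
          rw [coc_eq N π e (hb x hx) ⟨g, hgN⟩ rfl]
          refine SD.ext' ?_ h3
          simp only
          ext q
          rw [dif_apply e _ _ _ (hc x hx ⟨g, hgN⟩ hgx) q]
          obtain ⟨c, ⟨_, h6⟩, _, h7⟩ := h4 q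
          rw [h7, h6]
          abel
      rw [hset]
      refine MeasurableSet.inter (MeasurableSet.const _) ?_
      refine MeasurableSet.iInter fun q => MeasurableSet.iUnion fun c => ?_
      exact (he q c).inter (hact g (he q _))
    · have hset : {x | x ∈ P ∧ g • x ∈ P ∧ coc N π e (g • x) x = γ} = ∅ := by
        ext x
        simp only [Set.mem_ofPred_eq, Set.mem_empty_iff_false, iff_false]
        rintro ⟨hx, hgx, _⟩
        exact hgN (ha x hx g hgx)
      rw [hset]
      exact MeasurableSet.empty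

end Pool.Agent.W919.EF
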