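import Pool.Agent.W919.EF.Loc

set_option autoImplicit false

/-! The countable set of finitely generated local lattices, and measurability. -/

namespace Pool.Agent.W919.EF

open Pool.Agent.H418R3.EF
open scoped Pointwise

variable {n : ℕ}

/-- finitely generated `ℤ_(q)`-submodules of `ℚ ^ n`, for all `q` -/
def Y (n : ℕ) : Type :=
  {Λ : AddSubgroup (V n) // ∃ (q : ℕ) (S : Finset (V n)),
    Λ = loc q (AddSubgroup.closure (S : Set (V n)))}

instance : MulAction (GQ n) (Y n) where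
  smul g Λ := ⟨g • Λ.1, by
    classical
    obtain ⟨q, S, h⟩ := Λ.2
    refine ⟨q, S.image (fun v => g v), ?_⟩
    rw [h, ← loc_smul, Finset.coe_image]
    congr 1
    exact AddMonoidHom.map_closure (DistribMulAction.toAddMonoidEnd (GQ n) (V n) g) _⟩
  one_smul Λ := Subtype.ext (one_smul (GQ n) Λ.1)
  mul_smul g h Λ := Subtype.ext (mul_smul g h Λ.1)

theorem Y_coe_smul (g : GQ n) (Λ : Y n) : (g • Λ).1 = g • Λ.1 := rfl

instance : Countable (Y n) := by
  have : Function.Surjective (fun p : ℕ × Finset (V n) =>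
      (⟨loc p.1 (AddSubgroup.closure (p.2 : Set (V n))), p.1, p.2, rfl⟩ : Y n)) := by
    rintro ⟨Λ, q, S, h⟩
    exact ⟨(q, S), Subtype.ext h.symm⟩
  exact this.countable

theorem fg_int (m : ℕ) (B : AddSubgroup (Fin m → ℤ)) : B.FG := by
  have h := IsNoetherian.noetherian (AddSubgroup.toIntSubmodule B)
  rw [Submodule.fg_iff_addSubgroup_fg] at h
  simpa using h

theorem exists_closure (k : ℕ) {q : ℕ} (hq : q ≠ 0) (A : AddSubgroup (V n)) :
    ∃ S : Finset (V n), ∀ v, v ∈ AddSubgroup.closure (S : Set (V n)) ↔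
      v ∈ A ∧ ((q : ℤ) ^ k) • v ∈ Std n := by
  classical
  have hq0 : (q : ℚ) ^ k ≠ 0 := pow_ne_zero _ (by exact_mod_cast hq)
  let φ : (Fin n → ℤ) →+ V n :=
    { toFun := fun w i => (w i : ℚ) / (q : ℚ) ^ k
      map_zero' := by funext i; simp
      map_add' := by intro a b; funext i; simp [add_div] }
  obtain ⟨T, hT⟩ := fg_int n (A.comap φ)
  refine ⟨T.image φ, fun v => ?_⟩
  have h1 : AddSubgroup.closure ((T.image φ : Finset (V n)) : Set (V n)) =
      (A.comap φ).map φ := by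
    rw [← hT, AddMonoidHom.map_closure, Finset.coe_image]
  rw [h1, AddSubgroup.mem_map]
  constructor
  · rintro ⟨w, hw, rfl⟩
    refine ⟨hw, fun i => ⟨w i, ?_⟩⟩
    rw [Pi.smul_apply, zsmul_eq_mul]
    change (((q : ℤ) ^ k : ℤ) : ℚ) * ((w i : ℚ) / (q : ℚ) ^ k) = w i
    push_cast
    field_simp
  · rintro ⟨hv, hs⟩
    choose z hz using hs
    have h2 : φ z = v := by
      funext i
      change (z i : ℚ) / (q : ℚ) ^ k = v i
      rw [← hz i, Pi.smul_apply, zsmul_eq_mul]
      push_cast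
      field_simp
    exact ⟨z, by rw [AddSubgroup.mem_comap, h2]; exact hv, h2⟩

theorem Lam_fg {q : ℕ} (hq : q.Prime) (A : AddSubgroup (V n)) :
    ∃ (q' : ℕ) (S : Finset (V n)), Lam q A = loc q' (AddSubgroup.closure (S : Set (V n))) := by
  obtain ⟨S, hS⟩ := exists_closure (Nq q A) hq.ne_zero A
  refine ⟨q, S, ?_⟩
  ext v
  constructor
  · rintro ⟨⟨b, hb, hbv⟩, h2⟩
    obtain ⟨c, hc, h2⟩ := h2
    refine ⟨b * c, hb.mul_left hc, (hS _).2 ⟨?_, ?_⟩⟩
    · rw [mul_comm, mul_smul]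
      exact A.zsmul_mem hbv _
    · rw [smul_smul] at h2 ⊢
      have : (q : ℤ) ^ Nq q A * (b * c) = b * (c * (q : ℤ) ^ Nq q A) := by ring
      rw [this, mul_smul]
      exact AddSubgroup.zsmul_mem _ h2 _
  · rintro ⟨b, hb, hbv⟩
    obtain ⟨h1, h2⟩ := (hS _).1 hbv
    refine ⟨⟨b, hb, h1⟩, ⟨b, hb, ?_⟩⟩
    rw [smul_comm]
    exact h2

theorem Std_fg (q : ℕ) : ∃ (q' : ℕ) (S : Finset (V n)),
    loc q (Std n) = loc q' (AddSubgroup.closure (S : Set (V n))) := by
  obtain ⟨S, hS⟩ := exists_closure 0 one_ne_zero (Std n)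
  refine ⟨q, S, ?_⟩
  congr 1
  ext v
  rw [hS]
  simp

/-- the lattice of `A` at the prime `q` -/
noncomputable def LamY {q : ℕ} (hq : q.Prime) (A : AddSubgroup (V n)) : Y n :=
  ⟨Lam q A, Lam_fg hq A⟩

/-- the standard lattice -/
noncomputable def StdY (n q : ℕ) : Y n := ⟨loc q (Std n), Std_fg q⟩

/-! ### measurability -/

section meas

variable (hmem : ∀ v : V n, MeasurableSet {A : Sn n | v ∈ A.1})
include hmem

theorem meas_loc (q : ℕ) (v : V n) : MeasurableSet {A : Sn n | v ∈ loc q A.1} := by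
  have : {A : Sn n | v ∈ loc q A.1} =
      ⋃ b : ℤ, {A : Sn n | IsCoprime b (q : ℤ)} ∩ {A : Sn n | b • v ∈ A.1} := by
    ext A
    simp only [Set.mem_iUnion, Set.mem_inter_iff, Set.mem_ofPred_eq]
    exact Iff.rfl
  rw [this]
  exact MeasurableSet.iUnion fun b => (MeasurableSet.const _).inter (hmem _)

theorem meas_Dv (q k : ℕ) : MeasurableSet {A : Sn n | Dv q k A.1} := by
  have : {A : Sn n | Dv q k A.1} =
      ⋂ x : V n, ({A : Sn n | x ∈ loc q A.1}ᶜ ∪ ⋃ y : V n, {A : Sn n | y ∈ loc q A.1} ∩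
        {A : Sn n | x - (q : ℤ) • y ∈ Ball n q k}) := by
    ext A
    simp only [Set.mem_iUnion, Set.mem_inter_iff, Set.mem_ofPred_eq, Set.mem_iInter,
      Set.mem_union, Set.mem_compl_iff]
    refine forall_congr' fun x => ?_
    constructor
    · intro h
      by_cases hx : x ∈ loc q A.1
      · exact Or.inr (h hx)
      · exact Or.inl hx
    · rintro (h | h) hx
      · exact absurd hx h
      · exact h
  rw [this]
  exact MeasurableSet.iInter fun x => (meas_loc hmem q x).compl.union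
    (MeasurableSet.iUnion fun y => (meas_loc hmem q y).inter (MeasurableSet.const _))

theorem meas_Nq {q : ℕ} (hq : q.Prime) (k : ℕ) : MeasurableSet {A : Sn n | Nq q A.1 = k} := by
  have : {A : Sn n | Nq q A.1 = k} =
      {A : Sn n | Dv q k A.1} ∩ ⋂ j : ℕ, ({A : Sn n | Dv q j A.1}ᶜ ∪ {A : Sn n | k ≤ j}) := by
    ext A
    simp only [Set.mem_inter_iff, Set.mem_ofPred_eq, Set.mem_iInter,
      Set.mem_union, Set.mem_compl_iff]
    constructor
    · rintro rfl
      refine ⟨Nq_spec hq A.1, fun j => ?_⟩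
      by_cases h : Dv q j A.1
      · exact Or.inr (Nat.sInf_le h)
      · exact Or.inl h
    · rintro ⟨h1, h2⟩
      refine le_antisymm (Nat.sInf_le h1) ?_
      rcases h2 (Nq q A.1) with h3 | h3
      · exact absurd (Nq_spec hq A.1) h3
      · exact h3
  rw [this]
  exact (meas_Dv hmem q k).inter (MeasurableSet.iInter fun j =>
    (meas_Dv hmem q j).compl.union (MeasurableSet.const _))

theorem meas_mem_Lam {q : ℕ} (hq : q.Prime) (v : V n) :
    MeasurableSet {A : Sn n | v ∈ Lam q A.1} := by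
  have : {A : Sn n | v ∈ Lam q A.1} = {A : Sn n | v ∈ loc q A.1} ∩
      ⋃ k : ℕ, {A : Sn n | Nq q A.1 = k} ∩ {A : Sn n | v ∈ Ball n q k} := by
    ext A
    simp only [Set.mem_inter_iff, Set.mem_ofPred_eq, Set.mem_iUnion, exists_eq_left']
    exact Iff.rfl
  rw [this]
  exact (meas_loc hmem q v).inter (MeasurableSet.iUnion fun k =>
    (meas_Nq hmem hq k).inter (MeasurableSet.const _))

theorem meas_LamY {q : ℕ} (hq : q.Prime) (Λ : Y n) :
    MeasurableSet {A : Sn n | LamY hq A.1 = Λ} := by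
  have : {A : Sn n | LamY hq A.1 = Λ} = ⋂ v : V n,
      (({A : Sn n | v ∈ Lam q A.1} ∩ {A : Sn n | v ∈ Λ.1}) ∪
        ({A : Sn n | v ∈ Lam q A.1}ᶜ ∩ {A : Sn n | v ∉ Λ.1})) := by
    ext A
    simp only [Set.mem_inter_iff, Set.mem_ofPred_eq, Set.mem_iInter,
      Set.mem_union, Set.mem_compl_iff]
    constructor
    · rintro h v
      have h1 : Lam q A.1 = Λ.1 := congrArg Subtype.val h
      rw [h1]
      by_cases h2 : v ∈ Λ.1
      · exact Or.inl ⟨h2, h2⟩
      · exact Or.inr ⟨h2, h2⟩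
    · intro h
      refine Subtype.ext ?_
      ext v
      change v ∈ Lam q A.1 ↔ v ∈ Λ.1
      rcases h v with ⟨h1, h2⟩ | ⟨h1, h2⟩
      · exact ⟨fun _ => h2, fun _ => h1⟩
      · exact ⟨fun h3 => absurd h3 h1, fun h3 => absurd h3 h2⟩
  rw [this]
  exact MeasurableSet.iInter fun v => ((meas_mem_Lam hmem hq v).inter (MeasurableSet.const _)).union
    ((meas_mem_Lam hmem hq v).compl.inter (MeasurableSet.const _))

end meas

end Pool.Agent.W919.EF
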