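import Pool.Agent.W919.EF.Abs
import Pool.Agent.W919.EF.Lab

set_option autoImplicit false

/-! The cocycle on the groups with a given algebra of quasi-endomorphisms. -/

namespace Pool.Agent.W919.EF

open Pool.Agent.H418R3.EF
open scoped Pointwise

variable {n : ℕ}

/-- the endomorphism of `ℚ ^ n` given by `g` -/
abbrev lin (g : GQ n) : Module.End ℚ (V n) := g.toLinearMap

theorem lin_mul (g h : GQ n) : lin (g * h) = lin g * lin h := rfl

theorem lin_one : lin (1 : GQ n) = 1 := rfl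

theorem lin_inv_mul (g : GQ n) : lin g⁻¹ * lin g = 1 := by
  rw [← lin_mul, inv_mul_cancel, lin_one]

theorem lin_mul_inv (g : GQ n) : lin g * lin g⁻¹ = 1 := by
  rw [← lin_mul, mul_inv_cancel, lin_one]

variable (D : Subalgebra ℚ (Module.End ℚ (V n)))

/-- the units of `D` -/
def Un : Subgroup (GQ n) where
  carrier := {g | lin g ∈ D ∧ lin g⁻¹ ∈ D}
  one_mem' := ⟨by rw [lin_one]; exact D.one_mem, by rw [inv_one, lin_one]; exact D.one_mem⟩
  mul_mem' := by
    rintro g h ⟨h1, h2⟩ ⟨h3, h4⟩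
    exact ⟨by rw [lin_mul]; exact D.mul_mem h1 h3, by
      rw [mul_inv_rev, lin_mul]; exact D.mul_mem h4 h2⟩
  inv_mem' := by
    rintro g ⟨h1, h2⟩
    exact ⟨h2, by rw [inv_inv]; exact h1⟩

/-- the normaliser of `D` -/
def Nn : Subgroup (GQ n) where
  carrier := {g | ∀ f : Module.End ℚ (V n), f ∈ D ↔ lin g * f * lin g⁻¹ ∈ D}
  one_mem' := by
    intro f
    rw [inv_one, lin_one, one_mul, mul_one]
  mul_mem' := by
    intro g h h1 h2 f
    rw [h2 f, h1]
    have : lin g * (lin h * f * lin h⁻¹) * lin g⁻¹ = lin (g * h) * f * lin (g * h)⁻¹ := by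
      rw [mul_inv_rev, lin_mul, lin_mul]
      simp only [mul_assoc]
    rw [this]
  inv_mem' := by
    intro g h1 f
    rw [h1 (lin g⁻¹ * f * lin g⁻¹⁻¹)]
    have : lin g * (lin g⁻¹ * f * lin g⁻¹⁻¹) * lin g⁻¹ = f := by
      rw [inv_inv]
      have e1 : lin g * (lin g⁻¹ * f * lin g) * lin g⁻¹ =
        (lin g * lin g⁻¹) * f * (lin g * lin g⁻¹) := by simp only [mul_assoc]
      rw [e1, lin_mul_inv, one_mul, mul_one]
    rw [this]

theorem Un_le_Nn : Un D ≤ Nn D := by
  rintro g ⟨h1, h2⟩ f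
  constructor
  · intro h
    exact D.mul_mem (D.mul_mem h1 h) h2
  · intro h
    have : f = lin g⁻¹ * (lin g * f * lin g⁻¹) * lin g := by
      have e1 : lin g⁻¹ * (lin g * f * lin g⁻¹) * lin g =
        (lin g⁻¹ * lin g) * f * (lin g⁻¹ * lin g) := by simp only [mul_assoc]
      rw [e1, lin_inv_mul, one_mul, mul_one]
    rw [this]
    exact D.mul_mem (D.mul_mem h2 h) h1

theorem conj_mem_Un {g u : GQ n} (hg : g ∈ Nn D) (hu : u ∈ Un D) : g * u * g⁻¹ ∈ Un D := by
  refine ⟨?_, ?_⟩
  · rw [lin_mul, lin_mul]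
    exact (hg _).1 hu.1
  · have : (g * u * g⁻¹)⁻¹ = g * u⁻¹ * g⁻¹ := by group
    rw [this, lin_mul, lin_mul]
    exact (hg _).1 hu.2

instance : ((Un D).subgroupOf (Nn D)).Normal where
  conj_mem := by
    intro u hu g
    rw [Subgroup.mem_subgroupOf] at hu ⊢
    exact conj_mem_Un D g.2 hu

/-- orbits of pairs of lattices -/
abbrev Zt : Type := Quotient (MulAction.orbitRel (Un D) (Y n × Y n))

/-- the class of a pair of lattices -/
def cl (y : Y n × Y n) : Zt D := Quotient.mk (MulAction.orbitRel (Un D) (Y n × Y n)) y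

theorem cl_eq {y z : Y n × Y n} : cl D y = cl D z ↔ ∃ u ∈ Un D, u • z = y := by
  unfold cl
  rw [Quotient.eq]
  change y ∈ MulAction.orbit (Un D) z ↔ _
  rw [MulAction.mem_orbit_iff]
  constructor
  · rintro ⟨u, hu⟩
    exact ⟨u, u.2, hu⟩
  · rintro ⟨u, hu, h⟩
    exact ⟨⟨u, hu⟩, h⟩

instance : MulAction (Nn D) (Zt D) where
  smul g := Quotient.map (fun y => (g : GQ n) • y) (by
    intro y z hyz
    have h1 : cl D y = cl D z := Quotient.sound hyz
    obtain ⟨u, hu, rfl⟩ := (cl_eq D).1 h1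
    have h2 : cl D ((g : GQ n) • u • z) = cl D ((g : GQ n) • z) := by
      rw [cl_eq]
      refine ⟨(g : GQ n) * u * (g : GQ n)⁻¹, conj_mem_Un D g.2 hu, ?_⟩
      rw [mul_smul, mul_smul, inv_smul_smul]
    exact Quotient.exact h2)
  one_smul := by
    intro z
    induction z using Quotient.inductionOn with
    | h y =>
      change cl D ((1 : GQ n) • y) = cl D y
      rw [one_smul]
  mul_smul := by
    intro g h z
    induction z using Quotient.inductionOn with
    | h y =>
      change cl D (((g : GQ n) * (h : GQ n)) • y) = cl D ((g : GQ n) • (h : GQ n) • y)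
      rw [mul_smul]

theorem smul_cl (g : Nn D) (y : Y n × Y n) : g • cl D y = cl D ((g : GQ n) • y) := rfl

/-- the quotient group -/
abbrev Hn : Type := Nn D ⧸ (Un D).subgroupOf (Nn D)

/-- the action of the quotient group -/
def permH : Hn D →* Equiv.Perm (Zt D) :=
  QuotientGroup.lift _ (MulAction.toPermHom (Nn D) (Zt D)) (by
    intro u hu
    rw [Subgroup.mem_subgroupOf] at hu
    ext z
    induction z using Quotient.inductionOn with
    | h y =>
      change cl D ((u : GQ n) • y) = cl D y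
      rw [cl_eq]
      exact ⟨u, hu, rfl⟩)

instance : MulAction (Hn D) (Zt D) := MulAction.compHom (Zt D) (permH D)

theorem mk_smul_cl (g : Nn D) (y : Y n × Y n) :
    (QuotientGroup.mk' ((Un D).subgroupOf (Nn D)) g) • cl D y = cl D ((g : GQ n) • y) := rfl

/-- the module -/
abbrev Mn : Type := Zt D →₀ ZMod 2

attribute [local instance] Finsupp.comapSMul Finsupp.comapMulAction Finsupp.comapDistribMulAction

noncomputable instance instAct : DistribMulAction (Hn D) (Mn D) := Finsupp.comapDistribMulAction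

/-- the pair of lattices of `A` at `q` -/
noncomputable def pr {q : ℕ} (hq : q.Prime) (A : AddSubgroup (V n)) : Y n × Y n :=
  (LamY hq A, StdY n q)

open Classical in
/-- the label of `A` at `q` -/
noncomputable def lab (m q : ℕ) (A : Sn n) : Mn D :=
  if h : q.Prime ∧ ¬ q ∣ m then Finsupp.single (cl D (pr h.1 A.1)) 1 else 0

/-- groups with algebra `D` of quasi-endomorphisms, such that `m` times the integral matrices in
`D` are endomorphisms -/
def PD' (m : ℕ) : Set (Sn n) :=
  {A | (∀ f : Module.End ℚ (V n), f ∈ D ↔ ∃ k : ℤ, k ≠ 0 ∧ ∀ v ∈ A.1, k • f v ∈ A.1) ∧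
    ∀ f : Module.End ℚ (V n), f ∈ D → (∀ v ∈ Std n, f v ∈ Std n) →
      ∀ v ∈ A.1, (m : ℤ) • f v ∈ A.1}

theorem smul_pr {q : ℕ} (hq : q.Prime) {g : GQ n} (hg : g ∈ Kq n q) (A : AddSubgroup (V n)) :
    g • pr hq A = pr hq (g • A) := by
  refine Prod.ext ?_ ?_
  · exact Subtype.ext (Lam_smul hg A).symm
  · exact Subtype.ext (mem_Kq.1 hg)

theorem good_aux {m q : ℕ} (hq : q.Prime) (hqm : ¬ q ∣ m) {A : Sn n} (hA : A ∈ PD' D m)
    {u : GQ n} (hu : lin u ∈ D) (hK : u ∈ Kq n q) (v : V n) (hv : v ∈ loc q A.1) :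
    u v ∈ loc q A.1 := by
  have h1 : ∀ i : Fin n, ∃ b : ℤ, IsCoprime b (q : ℤ) ∧ b • u (Pi.single i 1) ∈ Std n := by
    intro i
    have h2 : (Pi.single i 1 : V n) ∈ loc q (Std n) := by
      refine le_loc _ _ fun j => ?_
      by_cases hij : j = i
      · subst hij; exact ⟨1, by simp⟩
      · exact ⟨0, by simp [hij]⟩
    have h3 : u (Pi.single i 1) ∈ u • loc q (Std n) := (apply_mem_gsmul _ _ _).2 h2
    rw [mem_Kq.1 hK] at h3
    exact h3
  choose b hb hb2 using h1
  have hcop : IsCoprime (∏ i, b i) (q : ℤ) := IsCoprime.prod_left fun i _ => hb i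
  have h4 := hA.2 ((∏ i, b i : ℤ) • lin u) (zsmul_mem hu _) (by
    intro w hw
    choose z hz using hw
    have e1 : w = ∑ i, z i • (Pi.single i (1 : ℚ) : V n) := by
      funext l
      simp [Finset.sum_apply, Pi.single_apply, hz]
    rw [LinearMap.smul_apply]
    change (∏ i, b i : ℤ) • u w ∈ Std n
    rw [e1, map_sum, Finset.smul_sum]
    refine AddSubgroup.sum_mem _ fun i _ => ?_
    rw [map_zsmul, smul_comm, ← Finset.mul_prod_erase Finset.univ b (Finset.mem_univ i), mul_comm,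
      mul_smul]
    exact AddSubgroup.zsmul_mem _ (AddSubgroup.zsmul_mem _ (hb2 i) _) _)
  obtain ⟨c, hc, hcv⟩ := hv
  have h5 := h4 _ hcv
  have hmq : IsCoprime (m : ℤ) (q : ℤ) :=
    Nat.isCoprime_iff_coprime.2 ((Nat.Prime.coprime_iff_not_dvd hq).2 hqm).symm
  refine ⟨m * ((∏ i, b i) * c), hmq.mul_left (hcop.mul_left hc), ?_⟩
  have e2 : ((m : ℤ) * ((∏ i, b i) * c)) • u v = (m : ℤ) • ((∏ i, b i : ℤ) • lin u) (c • v) := by
    rw [LinearMap.smul_apply, map_zsmul, mul_smul, mul_smul]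
    rfl
  rw [e2]
  exact h5

theorem good {m q : ℕ} (hq : q.Prime) (hqm : ¬ q ∣ m) {A : Sn n} (hA : A ∈ PD' D m)
    {u : GQ n} (hu : u ∈ Un D) (hK : u ∈ Kq n q) : u • loc q A.1 = loc q A.1 := by
  ext v
  rw [mem_gsmul]
  constructor
  · intro h
    have := good_aux D hq hqm hA hu.1 hK _ h
    rwa [apply_inv] at this
  · intro h
    exact good_aux D hq hqm hA hu.2 ((Kq n q).inv_mem hK) _ h

theorem Lam_of_good {q : ℕ} {A : Sn n} {u : GQ n} (hK : u ∈ Kq n q)
    (h : u • loc q A.1 = loc q A.1) : u • Lam q A.1 = Lam q A.1 := by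
  ext v
  have h1 : u⁻¹ v ∈ loc q A.1 ↔ v ∈ loc q A.1 := by
    rw [← mem_gsmul, h]
  rw [mem_gsmul]
  unfold Lam
  rw [AddSubgroup.mem_inf, AddSubgroup.mem_inf, h1, ← Kq_Ball hK (Nq q A.1) (u⁻¹ v), apply_inv]

theorem mem_Nn_of {m : ℕ} {A : Sn n} (hA : A ∈ PD' D m) (g : GQ n) (hg : g • A ∈ PD' D m) :
    g ∈ Nn D := by
  intro f
  rw [hA.1 f, hg.1]
  refine exists_congr fun k => and_congr_right fun _ => ?_
  constructor
  · intro h v hv
    rw [mem_smul] at hv ⊢
    have h1 := h _ hv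
    have : g⁻¹ (k • (lin g * f * lin g⁻¹) v) = k • f (g⁻¹ v) := by
      rw [map_zsmul]
      change k • g⁻¹ (g (f (g⁻¹ v))) = _
      rw [inv_apply]
    rw [this]
    exact h1
  · intro h v hv
    have h1 := h (g v) (by rw [mem_smul, inv_apply]; exact hv)
    rw [mem_smul] at h1
    have : g⁻¹ (k • (lin g * f * lin g⁻¹) (g v)) = k • f v := by
      rw [map_zsmul]
      change k • g⁻¹ (g (f (g⁻¹ (g v)))) = _
      rw [inv_apply, inv_apply]
    rw [this] at h1
    exact h1

theorem mem_Un_of {m : ℕ} {A : Sn n} (hA : A ∈ PD' D m) (g : GQ n) (hg : g • A = A) :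
    g ∈ Un D := by
  have key : ∀ h : GQ n, h • A = A → lin h ∈ D := by
    intro h hh
    rw [hA.1]
    refine ⟨1, one_ne_zero, fun v hv => ?_⟩
    rw [one_smul]
    have h1 : v ∈ (h⁻¹ • A).1 := by
      rw [inv_smul_eq_iff.2 hh.symm]; exact hv
    rw [mem_smul, inv_inv] at h1
    exact h1
  exact ⟨key g hg, key g⁻¹ (inv_smul_eq_iff.2 hg.symm)⟩

theorem single_inj {Z : Type} {a b : Z} (h : Finsupp.single a (1 : ZMod 2) = Finsupp.single b 1) :
    a = b := (Finsupp.single_left_inj one_ne_zero).1 h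

theorem hasCoc_PD (hStd : TaskStd) (m : ℕ) (hm : m ≠ 0) : HasCoc (GQ n) (PD' D m) := by
  classical
  obtain ⟨hc, _, hact, _, hmem⟩ := hStd n
  have hPmeas : MeasurableSet (PD' D m) := by
    have hce : Countable (Module.End ℚ (V n)) := by
      have : Function.Injective (fun (f : Module.End ℚ (V n)) (i : Fin n) =>
          f (Pi.single i 1)) := by
        intro f g h
        refine (Pi.basisFun ℚ (Fin n)).ext fun i => ?_
        rw [Pi.basisFun_apply]
        exact congrFun h i
      exact this.countable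
    have h1 : ∀ (f : Module.End ℚ (V n)) (k : ℤ),
        MeasurableSet {A : Sn n | ∀ v ∈ A.1, k • f v ∈ A.1} := by
      intro f k
      have : {A : Sn n | ∀ v ∈ A.1, k • f v ∈ A.1} =
          ⋂ v : V n, ({A : Sn n | v ∈ A.1}ᶜ ∪ {A : Sn n | k • f v ∈ A.1}) := by
        ext A
        simp only [Set.mem_ofPred_eq, Set.mem_iInter, Set.mem_union, Set.mem_compl_iff]
        refine forall_congr' fun v => ?_
        tauto
      rw [this]
      exact MeasurableSet.iInter fun v => (hmem _).compl.union (hmem _)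
    have h2 : PD' D m = (⋂ f : Module.End ℚ (V n),
        (({A : Sn n | f ∈ D} ∩ ⋃ k : ℤ, {A : Sn n | k ≠ 0} ∩
            {A : Sn n | ∀ v ∈ A.1, k • f v ∈ A.1}) ∪
          ({A : Sn n | f ∉ D} ∩ (⋃ k : ℤ, {A : Sn n | k ≠ 0} ∩
            {A : Sn n | ∀ v ∈ A.1, k • f v ∈ A.1})ᶜ))) ∩
        ⋂ f : Module.End ℚ (V n), ({A : Sn n | f ∈ D ∧ (∀ v ∈ Std n, f v ∈ Std n)}ᶜ ∪
          {A : Sn n | ∀ v ∈ A.1, (m : ℤ) • f v ∈ A.1}) := by
      ext A
      simp only [PD', Set.mem_ofPred_eq, Set.mem_iInter, Set.mem_union, Set.mem_compl_iff,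
        Set.mem_inter_iff, Set.mem_iUnion]
      refine and_congr (forall_congr' fun f => ?_) (forall_congr' fun f => ?_)
      · exact iff_iff_and_or_not_and_not
      · tauto
    rw [h2]
    refine MeasurableSet.inter (MeasurableSet.iInter fun f => ?_) (MeasurableSet.iInter fun f => ?_)
    · have h3 : MeasurableSet (⋃ k : ℤ, {A : Sn n | k ≠ 0} ∩
            {A : Sn n | ∀ v ∈ A.1, k • f v ∈ A.1}) :=
        MeasurableSet.iUnion fun k => (MeasurableSet.const _).inter (h1 f k)
      exact ((MeasurableSet.const _).inter h3).union ((MeasurableSet.const _).inter h3.compl)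
    · exact (MeasurableSet.const _).compl.union (h1 f m)
  have hcN : Countable (Hn D) := Quotient.countable
  have hcZ : Countable (Zt D) := Quotient.countable
  obtain ⟨code, hcode⟩ := exists_injective_nat (m.primeFactors → Y n)
  let ℓ : Sn n → ℕ := fun A =>
    code (fun q => LamY (Nat.prime_of_mem_primeFactors q.2) A.1)
  refine hasCoc_abs (H := Hn D) (M := Mn D) hact (PD' D m) (Nn D)
    (QuotientGroup.mk' ((Un D).subgroupOf (Nn D))) (lab D m) ℓ ?_ ?_ ?_ ?_ ?_ ?_
  · exact fun A hA g hg => mem_Nn_of D hA g hg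
  · intro A hA g hg
    rw [QuotientGroup.mk'_apply, QuotientGroup.eq_one_iff, Subgroup.mem_subgroupOf]
    exact mem_Un_of D hA _ hg
  · intro A hA g hg
    obtain ⟨E, hE, hEK⟩ := exists_Kq (g : GQ n)
    refine Set.Finite.subset (E.primeFactors.finite_toSet) fun q hq => ?_
    by_contra hqE
    apply hq
    unfold lab
    by_cases h : q.Prime ∧ ¬ q ∣ m
    · rw [dif_pos h, dif_pos h]
      have hK : (g : GQ n) ∈ Kq n q := by
        refine hEK q (Nat.isCoprime_iff_coprime.2
          ((Nat.Prime.coprime_iff_not_dvd h.1).2 fun hd => hqE ?_).symm)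
        exact Nat.mem_primeFactors.2 ⟨h.1, hd, hE.ne'⟩
      rw [Finsupp.comapSMul_single, mk_smul_cl, smul_pr h.1 hK]
      rfl
    · rw [dif_neg h, dif_neg h, smul_zero]
  · intro A hA g hg h1 h2 h3
    rw [QuotientGroup.mk'_apply, QuotientGroup.eq_one_iff, Subgroup.mem_subgroupOf] at h1
    have hLam : ∀ q : ℕ, q.Prime → Lam q ((g : GQ n) • A).1 = Lam q A.1 := by
      intro q hq
      by_cases hqm : q ∣ m
      · have h4 := hcode h3
        have h5 := congrFun h4 ⟨q, Nat.mem_primeFactors.2 ⟨hq, hqm, hm⟩⟩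
        exact congrArg Subtype.val h5
      · have h4 := h2 q
        unfold lab at h4
        rw [dif_pos ⟨hq, hqm⟩, dif_pos ⟨hq, hqm⟩] at h4
        have h5 := single_inj h4
        obtain ⟨u, hu, h6⟩ := (cl_eq D).1 h5
        have h7 : u • LamY hq A.1 = LamY hq ((g : GQ n) • A).1 := congrArg Prod.fst h6
        have h8 : u • StdY n q = StdY n q := congrArg Prod.snd h6
        have hK : u ∈ Kq n q := mem_Kq.2 (congrArg Subtype.val h8)
        have h9 : u • Lam q A.1 = Lam q ((g : GQ n) • A).1 := congrArg Subtype.val h7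
        rw [← h9]
        exact Lam_of_good hK (good D hq hqm hA hu hK)
    obtain ⟨k, hk, hk2⟩ := (hA.1 _).1 h1.1
    obtain ⟨l, hl, hl2⟩ := (hA.1 _).1 h1.2
    have e1 : ∀ v ∈ ((g : GQ n) • A).1, k • v ∈ A.1 := by
      intro v hv
      rw [mem_smul] at hv
      have := hk2 _ hv
      change k • (g : GQ n) ((g : GQ n)⁻¹ v) ∈ A.1 at this
      rwa [apply_inv] at this
    have e2 : ∀ v ∈ A.1, l • v ∈ ((g : GQ n) • A).1 := by
      intro v hv
      rw [mem_smul, map_zsmul]
      exact hl2 _ hv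
    have hloc : ∀ q : ℕ, q.Prime → loc q ((g : GQ n) • A).1 = loc q A.1 := fun q hq =>
      loc_eq_of_Lam hq (hLam q hq) hk e1 hl e2
    refine Subtype.ext (le_antisymm ?_ ?_)
    · intro v hv
      refine mem_of_forall_loc v (fun q hq => ?_) ⟨k, hk, e1 v hv⟩
      rw [← hloc q hq]
      exact le_loc _ _ hv
    · intro v hv
      refine mem_of_forall_loc v (fun q hq => ?_) ⟨l, hl, e2 v hv⟩
      rw [hloc q hq]
      exact le_loc _ _ hv
  · intro q c
    by_cases h : q.Prime ∧ ¬ q ∣ m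
    · have : {x | x ∈ PD' D m ∧ lab D m q x = c} = PD' D m ∩ ⋃ Λ : Y n,
          {A : Sn n | LamY h.1 A.1 = Λ} ∩
            {A : Sn n | Finsupp.single (cl D (Λ, StdY n q)) 1 = c} := by
        ext A
        simp only [Set.mem_ofPred_eq, Set.mem_inter_iff, Set.mem_iUnion, exists_eq_left']
        unfold lab
        rw [dif_pos h]
        exact Iff.rfl
      rw [this]
      exact hPmeas.inter (MeasurableSet.iUnion fun Λ => (meas_LamY hmem h.1 Λ).inter
        (MeasurableSet.const _))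
    · have : {x | x ∈ PD' D m ∧ lab D m q x = c} = PD' D m ∩ {A : Sn n | (0 : Mn D) = c} := by
        ext A
        simp only [Set.mem_ofPred_eq, Set.mem_inter_iff]
        unfold lab
        rw [dif_neg h]
      rw [this]
      exact hPmeas.inter (MeasurableSet.const _)
  · intro k
    have : {x | x ∈ PD' D m ∧ ℓ x = k} = PD' D m ∩ ⋃ F : m.primeFactors → Y n,
        {A : Sn n | code F = k} ∩ ⋂ q : m.primeFactors,
          {A : Sn n | LamY (Nat.prime_of_mem_primeFactors q.2) A.1 = F q} := by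
      ext A
      simp only [Set.mem_ofPred_eq, Set.mem_inter_iff, Set.mem_iUnion, Set.mem_iInter]
      refine and_congr_right fun _ => ?_
      constructor
      · intro h
        exact ⟨_, h, fun q => rfl⟩
      · rintro ⟨F, h, hF⟩
        rw [← h]
        exact congrArg code (funext hF)
    rw [this]
    exact hPmeas.inter (MeasurableSet.iUnion fun F => (MeasurableSet.const _).inter
      (MeasurableSet.iInter fun q => meas_LamY hmem _ _))

end Pool.Agent.W919.EF
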