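import Pool.Agent.H418R3.EF.Stmts

set_option autoImplicit false

/-! Localisation of subgroups of `ℚ ^ n`. -/

namespace Pool.Agent.W919.EF

open Pool.Agent.H418R3.EF
open scoped Pointwise

variable {n : ℕ}

theorem mem_gsmul (g : GQ n) (A : AddSubgroup (V n)) (v : V n) : v ∈ g • A ↔ g⁻¹ v ∈ A :=
  AddSubgroup.mem_pointwise_smul_iff_inv_smul_mem

theorem apply_mem_gsmul (g : GQ n) (A : AddSubgroup (V n)) (v : V n) : g v ∈ g • A ↔ v ∈ A := by
  rw [mem_gsmul]
  have : g⁻¹ (g v) = v := by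
    rw [← LinearEquiv.mul_apply, inv_mul_cancel]; rfl
  rw [this]

theorem apply_inv (g : GQ n) (v : V n) : g (g⁻¹ v) = v := by
  rw [← LinearEquiv.mul_apply, mul_inv_cancel]; rfl

theorem inv_apply (g : GQ n) (v : V n) : g⁻¹ (g v) = v := by
  rw [← LinearEquiv.mul_apply, inv_mul_cancel]; rfl

/-- the localisation of `A` at `q` -/
def loc (q : ℕ) (A : AddSubgroup (V n)) : AddSubgroup (V n) where
  carrier := {v | ∃ b : ℤ, IsCoprime b (q : ℤ) ∧ b • v ∈ A}
  zero_mem' := ⟨1, isCoprime_one_left, by rw [smul_zero]; exact A.zero_mem⟩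
  add_mem' := by
    rintro v w ⟨b, hb, hv⟩ ⟨c, hc, hw⟩
    refine ⟨b * c, hb.mul_left hc, ?_⟩
    have : (b * c) • (v + w) = c • (b • v) + b • (c • w) := by
      rw [smul_add, smul_smul, smul_smul, mul_comm c b]
    rw [this]
    exact A.add_mem (A.zsmul_mem hv _) (A.zsmul_mem hw _)
  neg_mem' := by
    rintro v ⟨b, hb, hv⟩
    exact ⟨b, hb, by rw [smul_neg]; exact A.neg_mem hv⟩

theorem mem_loc {q : ℕ} {A : AddSubgroup (V n)} {v : V n} :
    v ∈ loc q A ↔ ∃ b : ℤ, IsCoprime b (q : ℤ) ∧ b • v ∈ A := Iff.rfl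

theorem le_loc (q : ℕ) (A : AddSubgroup (V n)) : A ≤ loc q A := fun v hv =>
  ⟨1, isCoprime_one_left, by rw [one_smul]; exact hv⟩

theorem loc_mono {q : ℕ} {A B : AddSubgroup (V n)} (h : A ≤ B) : loc q A ≤ loc q B := by
  rintro v ⟨b, hb, hv⟩
  exact ⟨b, hb, h hv⟩

theorem mem_loc_of_smul {q : ℕ} {A : AddSubgroup (V n)} {v : V n} {b : ℤ}
    (hb : IsCoprime b (q : ℤ)) (h : b • v ∈ loc q A) : v ∈ loc q A := by
  obtain ⟨c, hc, h⟩ := h
  rw [smul_smul] at h
  exact ⟨c * b, hc.mul_left hb, h⟩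

theorem loc_smul (q : ℕ) (g : GQ n) (A : AddSubgroup (V n)) : loc q (g • A) = g • loc q A := by
  ext v
  rw [mem_gsmul, mem_loc, mem_loc]
  simp only [mem_gsmul, map_zsmul]

theorem mem_of_forall_loc {A : AddSubgroup (V n)} (v : V n) (h : ∀ q : ℕ, q.Prime → v ∈ loc q A)
    (h0 : ∃ N : ℤ, N ≠ 0 ∧ N • v ∈ A) : v ∈ A := by
  classical
  -- the least positive integer `N` with `N v ∈ A`
  have h1 : ∃ N : ℕ, 0 < N ∧ (N : ℤ) • v ∈ A := by
    obtain ⟨N, hN, h2⟩ := h0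
    refine ⟨N.natAbs, Int.natAbs_pos.2 hN, ?_⟩
    rcases Int.natAbs_eq N with h3 | h3
    · rw [← h3]; exact h2
    · have : ((N.natAbs : ℕ) : ℤ) = - N := by omega
      rw [this, neg_smul]; exact A.neg_mem h2
  obtain ⟨hN0, hN⟩ := Nat.find_spec h1
  set N := Nat.find h1 with hNdef
  have hmin : ∀ M : ℕ, 0 < M → (M : ℤ) • v ∈ A → N ≤ M := fun M h2 h3 =>
    Nat.find_min' h1 ⟨h2, h3⟩
  by_cases hN1 : N = 1
  · rw [hN1] at hN
    simpa using hN
  · exfalso
    obtain ⟨q, hq, hqN⟩ := Nat.exists_prime_and_dvd hN1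
    obtain ⟨M, hM⟩ := hqN
    obtain ⟨b, hb, hbv⟩ := h q hq
    obtain ⟨s, t, hst⟩ := hb
    have hMpos : 0 < M := by
      rcases Nat.eq_zero_or_pos M with h4 | h4
      · rw [h4, mul_zero] at hM; omega
      · exact h4
    have h5 : (M : ℤ) • v ∈ A := by
      have : (M : ℤ) = (M * s) * b + t * (N : ℤ) := by
        rw [hM]; push_cast
        calc (M : ℤ) = M * (s * b + t * q) := by rw [hst, mul_one]
          _ = _ := by ring
      rw [this, add_smul, mul_smul, mul_smul t]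
      exact A.add_mem (A.zsmul_mem hbv _) (A.zsmul_mem hN _)
    have h6 := hmin M hMpos h5
    have : q * M ≤ 1 * M := by rw [one_mul, ← hM]; exact h6
    have := Nat.le_of_mul_le_mul_right this hMpos
    have := hq.two_le
    omega

/-- the standard lattice -/
def Std (n : ℕ) : AddSubgroup (V n) where
  carrier := {v | ∀ i, ∃ z : ℤ, v i = z}
  zero_mem' := fun _ => ⟨0, by simp⟩
  add_mem' := by
    intro v w hv hw i
    obtain ⟨a, ha⟩ := hv i
    obtain ⟨b, hb⟩ := hw i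
    exact ⟨a + b, by rw [Pi.add_apply, ha, hb]; push_cast; rfl⟩
  neg_mem' := by
    intro v hv i
    obtain ⟨a, ha⟩ := hv i
    exact ⟨-a, by rw [Pi.neg_apply, ha]; push_cast; rfl⟩

theorem exists_mul_std (v : V n) : ∃ D : ℕ, 0 < D ∧ (D : ℤ) • v ∈ Std n := by
  refine ⟨∏ j, (v j).den, Finset.prod_pos fun j _ => (v j).pos, fun i => ?_⟩
  refine ⟨(v i).num * ∏ l ∈ Finset.univ.erase i, ((v l).den : ℤ), ?_⟩
  rw [Pi.smul_apply, zsmul_eq_mul, ← Finset.mul_prod_erase Finset.univ (fun j => (v j).den)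
    (Finset.mem_univ i)]
  push_cast
  have := Rat.mul_den_eq_num (v i)
  rw [← this]
  ring

/-- the ball `q ^ (-k) ℤ_(q) ^ n` -/
def Ball (n q k : ℕ) : AddSubgroup (V n) where
  carrier := {v | ((q : ℤ) ^ k) • v ∈ loc q (Std n)}
  zero_mem' := by
    change ((q : ℤ) ^ k) • (0 : V n) ∈ loc q (Std n)
    rw [smul_zero]; exact AddSubgroup.zero_mem _
  add_mem' := by
    intro v w hv hw
    change ((q : ℤ) ^ k) • (v + w) ∈ loc q (Std n)
    rw [smul_add]; exact AddSubgroup.add_mem _ hv hw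
  neg_mem' := by
    intro v hv
    change ((q : ℤ) ^ k) • (-v) ∈ loc q (Std n)
    rw [smul_neg]; exact AddSubgroup.neg_mem _ hv

theorem mem_Ball {q k : ℕ} {v : V n} : v ∈ Ball n q k ↔ ((q : ℤ) ^ k) • v ∈ loc q (Std n) := Iff.rfl

theorem Ball_mono {q k l : ℕ} (h : k ≤ l) : Ball n q k ≤ Ball n q l := by
  intro v hv
  rw [mem_Ball] at hv ⊢
  obtain ⟨d, rfl⟩ := Nat.exists_eq_add_of_le h
  rw [pow_add, mul_comm, mul_smul]
  exact AddSubgroup.zsmul_mem _ hv _

theorem exists_mem_Ball {q : ℕ} (hq : q.Prime) (v : V n) : ∃ k, v ∈ Ball n q k := by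
  obtain ⟨D, hD, h⟩ := exists_mul_std v
  obtain ⟨a, m, hm, hDm⟩ := Nat.exists_eq_pow_mul_and_not_dvd hD.ne' q hq.ne_one
  refine ⟨a, m, ?_, ?_⟩
  · exact Nat.isCoprime_iff_coprime.2 ((Nat.Prime.coprime_iff_not_dvd hq).2 hm).symm
  · rw [smul_smul]
    have : (m : ℤ) * (q : ℤ) ^ a = (D : ℤ) := by rw [hDm]; push_cast; ring
    rw [this]
    exact h

/-- `A_(q) = q A_(q) + (A_(q) ∩ ball)` -/
def Dv (q k : ℕ) (A : AddSubgroup (V n)) : Prop :=
  ∀ x ∈ loc q A, ∃ y ∈ loc q A, x - (q : ℤ) • y ∈ Ball n q k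

/-- a family in `A_(q)` which is independent modulo `q` -/
def Ind (q : ℕ) (A : AddSubgroup (V n)) {r : ℕ} (x : Fin r → V n) : Prop :=
  ∀ c : Fin r → ℤ, (∃ y ∈ loc q A, ∑ i, c i • x i = (q : ℤ) • y) → ∀ i, (q : ℤ) ∣ c i

theorem Ind.le {q : ℕ} (hq : q.Prime) {A : AddSubgroup (V n)} {r : ℕ} {x : Fin r → V n}
    (h : Ind q A x) : r ≤ n := by
  have hq0 : (q : ℤ) ≠ 0 := by exact_mod_cast hq.ne_zero
  have key : ∀ k : ℕ, ∀ c : Fin r → ℤ, ∑ i, c i • x i = 0 → ∀ i, (q : ℤ) ^ k ∣ c i := by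
    intro k
    induction k with
    | zero => intro c _ i; simp
    | succ k ih =>
      intro c hc i
      have h1 := h c ⟨0, AddSubgroup.zero_mem _, by rw [hc, smul_zero]⟩
      choose d hd using h1
      have h2 : ∑ i, d i • x i = 0 := by
        have h3 : (q : ℤ) • ∑ i, d i • x i = 0 := by
          rw [Finset.smul_sum, ← hc]
          refine Finset.sum_congr rfl fun i _ => ?_
          rw [smul_smul, ← hd i]
        exact (smul_eq_zero.1 h3).resolve_left hq0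
      obtain ⟨e, he⟩ := ih d h2 i
      refine ⟨e, ?_⟩
      rw [hd i, he, pow_succ]
      ring
  have hli : LinearIndependent ℤ x := by
    rw [Fintype.linearIndependent_iff]
    intro c hc i
    by_contra hne
    have h1 := key (c i).natAbs c hc i
    have h2 : (q ^ (c i).natAbs : ℤ).natAbs ≤ (c i).natAbs := Int.natAbs_le_of_dvd_ne_zero h1 hne
    rw [Int.natAbs_pow, Int.natAbs_natCast] at h2
    exact absurd h2 (not_le.2 (Nat.lt_pow_self hq.one_lt))
  have h3 : LinearIndependent ℚ x := (LinearIndependent.iff_fractionRing ℤ ℚ).1 hli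
  have h4 := h3.fintype_card_le_finrank
  simpa using h4

theorem exists_Dv {q : ℕ} (hq : q.Prime) (A : AddSubgroup (V n)) : ∃ k, Dv q k A := by
  by_contra hcon
  push Not at hcon
  have key : ∀ r : ℕ, ∃ x : Fin r → V n, (∀ i, x i ∈ loc q A) ∧ Ind q A x := by
    intro r
    induction r with
    | zero => exact ⟨fun i => i.elim0, fun i => i.elim0, fun c _ i => i.elim0⟩
    | succ r ih =>
      obtain ⟨x, hx, hI⟩ := ih
      have h1 : ∃ k, ∀ i, x i ∈ Ball n q k := by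
        choose k hk using fun i => exists_mem_Ball hq (x i)
        exact ⟨∑ i, k i, fun i => Ball_mono
          (Finset.single_le_sum (fun _ _ => Nat.zero_le _) (Finset.mem_univ i)) (hk i)⟩
      obtain ⟨k, hk⟩ := h1
      have h2 := hcon k
      unfold Dv at h2
      push Not at h2
      obtain ⟨w, hw, hw2⟩ := h2
      refine ⟨Fin.cons w x, ?_, ?_⟩
      · intro i
        refine Fin.cases ?_ (fun j => ?_) i
        · simpa using hw
        · simpa using hx j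
      · rintro c ⟨y, hy, hc⟩
        rw [Fin.sum_univ_succ] at hc
        simp only [Fin.cons_zero, Fin.cons_succ] at hc
        have h3 : (q : ℤ) ∣ c 0 := by
          by_contra hnd
          have hcop : IsCoprime (c 0) (q : ℤ) :=
            ((Nat.prime_iff_prime_int.1 hq).coprime_iff_not_dvd.2 hnd).symm
          obtain ⟨s, t, hst⟩ := hcop
          refine hw2 (s • y + t • w) (AddSubgroup.add_mem _ (AddSubgroup.zsmul_mem _ hy _)
            (AddSubgroup.zsmul_mem _ hw _)) ?_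
          have e1 : w - (q : ℤ) • (s • y + t • w) = -(s • ∑ i : Fin r, c i.succ • x i) := by
            have e2 : (q : ℤ) • (s • y + t • w) = s • ((q : ℤ) • y) + (t * q) • w := by
              rw [smul_add, smul_smul, smul_smul, smul_smul, mul_comm s, mul_comm t]
            have e3 : w = (s * c 0 + t * q) • w := by rw [hst, one_smul]
            rw [e2, ← hc]
            nth_rw 1 [e3]
            rw [add_smul, smul_add, mul_smul]
            abel
          rw [e1]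
          refine AddSubgroup.neg_mem _ (AddSubgroup.zsmul_mem _ (AddSubgroup.sum_mem _ ?_) _)
          intro i _
          exact AddSubgroup.zsmul_mem _ (hk i) _
        obtain ⟨d, hd⟩ := h3
        have h4 := hI (fun i => c i.succ) ⟨y - d • w, AddSubgroup.sub_mem _ hy
          (AddSubgroup.zsmul_mem _ hw _), by
            rw [smul_sub, ← hc, hd, mul_smul]
            abel⟩
        intro i
        refine Fin.cases ⟨d, hd⟩ (fun j => h4 j) i
  obtain ⟨x, _, hI⟩ := key (n + 1)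
  have := hI.le hq
  omega

open Classical in
/-- the least `k` -/
noncomputable def Nq (q : ℕ) (A : AddSubgroup (V n)) : ℕ := sInf {k | Dv q k A}

theorem Nq_spec {q : ℕ} (hq : q.Prime) (A : AddSubgroup (V n)) : Dv q (Nq q A) A :=
  Nat.sInf_mem (exists_Dv hq A)

/-- the lattice attached to `A` and `q` -/
noncomputable def Lam (q : ℕ) (A : AddSubgroup (V n)) : AddSubgroup (V n) :=
  loc q A ⊓ Ball n q (Nq q A)

theorem Lam_le (q : ℕ) (A : AddSubgroup (V n)) : Lam q A ≤ loc q A := inf_le_left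

theorem Lam_div {q : ℕ} (hq : q.Prime) (A : AddSubgroup (V n)) (c : ℕ) :
    ∀ x ∈ loc q A, ∃ y ∈ loc q A, x - ((q : ℤ) ^ c) • y ∈ Lam q A := by
  intro x hx
  induction c with
  | zero =>
    refine ⟨x, hx, ?_⟩
    rw [pow_zero, one_smul, sub_self]
    exact AddSubgroup.zero_mem _
  | succ c ih =>
    obtain ⟨y, hy, h1⟩ := ih
    obtain ⟨z, hz, h2⟩ := Nq_spec hq A y hy
    refine ⟨z, hz, ?_⟩
    have e1 : x - ((q : ℤ) ^ (c + 1)) • z =
        (x - ((q : ℤ) ^ c) • y) + ((q : ℤ) ^ c) • (y - (q : ℤ) • z) := by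
      rw [smul_sub, smul_smul, ← pow_succ]
      abel
    rw [e1]
    refine AddSubgroup.add_mem _ h1 (AddSubgroup.zsmul_mem _ ?_ _)
    exact ⟨AddSubgroup.sub_mem _ hy (AddSubgroup.zsmul_mem _ hz _), h2⟩

theorem loc_le_of_Lam {q : ℕ} (hq : q.Prime) {A B : AddSubgroup (V n)} (h : Lam q A ≤ loc q B)
    {N : ℤ} (hN : N ≠ 0) (hAB : ∀ v ∈ A, N • v ∈ B) : loc q A ≤ loc q B := by
  intro x hx
  -- write `N = q ^ c * m`
  obtain ⟨c, m, hm, hNm⟩ := Nat.exists_eq_pow_mul_and_not_dvd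
    (Int.natAbs_ne_zero.2 hN) q hq.ne_one
  have hmc : IsCoprime (m : ℤ) (q : ℤ) :=
    Nat.isCoprime_iff_coprime.2 ((Nat.Prime.coprime_iff_not_dvd hq).2 hm).symm
  have hAB' : ∀ v ∈ A, ((m : ℤ) * (q : ℤ) ^ c) • v ∈ B := by
    intro v hv
    have h1 : ((m : ℤ) * (q : ℤ) ^ c) = ((N.natAbs : ℕ) : ℤ) := by
      rw [hNm]; push_cast; ring
    rw [h1]
    rcases Int.natAbs_eq N with h3 | h3
    · rw [← h3]; exact hAB v hv
    · have : ((N.natAbs : ℕ) : ℤ) = - N := by omega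
      rw [this, neg_smul]; exact B.neg_mem (hAB v hv)
  obtain ⟨y, hy, h1⟩ := Lam_div hq A c x hx
  have h2 : ((q : ℤ) ^ c) • y ∈ loc q B := by
    obtain ⟨b, hb, hby⟩ := hy
    refine ⟨m * b, hmc.mul_left hb, ?_⟩
    have h3 := hAB' _ hby
    rw [smul_smul] at h3 ⊢
    convert h3 using 2
    ring
  have h3 := AddSubgroup.add_mem _ (h h1) h2
  rwa [sub_add_cancel] at h3

theorem loc_eq_of_Lam {q : ℕ} (hq : q.Prime) {A B : AddSubgroup (V n)} (h : Lam q A = Lam q B)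
    {N M : ℤ} (hN : N ≠ 0) (hAB : ∀ v ∈ A, N • v ∈ B) (hM : M ≠ 0) (hBA : ∀ v ∈ B, M • v ∈ A) :
    loc q A = loc q B :=
  le_antisymm (loc_le_of_Lam hq (h ▸ Lam_le q B) hN hAB)
    (loc_le_of_Lam hq (h ▸ Lam_le q A) hM hBA)

/-- the `q`-integral linear bijections -/
def Kq (n q : ℕ) : Subgroup (GQ n) := MulAction.stabilizer (GQ n) (loc q (Std n))

theorem mem_Kq {q : ℕ} {g : GQ n} : g ∈ Kq n q ↔ g • loc q (Std n) = loc q (Std n) := Iff.rfl

theorem Kq_Ball {q : ℕ} {g : GQ n} (hg : g ∈ Kq n q) (k : ℕ) (v : V n) :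
    g v ∈ Ball n q k ↔ v ∈ Ball n q k := by
  rw [mem_Ball, mem_Ball, ← map_zsmul]
  nth_rw 1 [← mem_Kq.1 hg]
  rw [apply_mem_gsmul]

theorem Kq_smul_Ball {q : ℕ} {g : GQ n} (hg : g ∈ Kq n q) (k : ℕ) :
    g • Ball n q k = Ball n q k := by
  ext v
  rw [mem_gsmul, ← Kq_Ball hg, apply_inv]

theorem Dv_smul {q k : ℕ} {g : GQ n} (hg : g ∈ Kq n q) {A : AddSubgroup (V n)} (h : Dv q k A) :
    Dv q k (g • A) := by
  intro x hx
  rw [loc_smul] at hx ⊢
  rw [mem_gsmul] at hx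
  obtain ⟨y, hy, h1⟩ := h _ hx
  refine ⟨g y, (apply_mem_gsmul _ _ _).2 hy, ?_⟩
  rw [← Kq_Ball hg, map_sub, map_zsmul, apply_inv] at h1
  exact h1

theorem Nq_smul {q : ℕ} {g : GQ n} (hg : g ∈ Kq n q) (A : AddSubgroup (V n)) :
    Nq q (g • A) = Nq q A := by
  unfold Nq
  congr 1
  ext k
  refine ⟨fun h => ?_, fun h => Dv_smul hg h⟩
  have := Dv_smul ((Kq n q).inv_mem hg) (show Dv q k (g • A) from h)
  rwa [inv_smul_smul] at this

theorem Lam_smul {q : ℕ} {g : GQ n} (hg : g ∈ Kq n q) (A : AddSubgroup (V n)) :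
    Lam q (g • A) = g • Lam q A := by
  unfold Lam
  rw [loc_smul, Nq_smul hg]
  ext v
  rw [AddSubgroup.mem_inf, mem_gsmul, mem_gsmul, AddSubgroup.mem_inf,
    ← Kq_Ball hg (Nq q A) (g⁻¹ v), apply_inv]

/-- every linear bijection is `q`-integral for almost all `q` -/
theorem exists_Kq (g : GQ n) : ∃ D : ℕ, 0 < D ∧ ∀ q : ℕ, IsCoprime (D : ℤ) (q : ℤ) → g ∈ Kq n q := by
  have key : ∀ h : GQ n, ∃ D : ℕ, 0 < D ∧ ∀ v ∈ Std n, (D : ℤ) • h v ∈ Std n := by
    intro h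
    choose D hD h1 using fun i : Fin n => exists_mul_std (h (Pi.single i 1))
    refine ⟨∏ i, D i, Finset.prod_pos fun i _ => hD i, fun v hv => ?_⟩
    choose z hz using hv
    have e1 : v = ∑ i, z i • (Pi.single i (1 : ℚ) : V n) := by
      funext l
      simp [Finset.sum_apply, Pi.single_apply, hz]
    rw [e1, map_sum, Finset.smul_sum]
    refine AddSubgroup.sum_mem _ fun i _ => ?_
    rw [map_zsmul, smul_comm, ← Finset.mul_prod_erase Finset.univ D (Finset.mem_univ i)]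
    push_cast
    rw [mul_comm, mul_smul]
    exact AddSubgroup.zsmul_mem _ (AddSubgroup.zsmul_mem _ (h1 i) _) _
  have key2 : ∀ h : GQ n, ∀ D : ℕ, (∀ v ∈ Std n, (D : ℤ) • h v ∈ Std n) → ∀ q : ℕ,
      IsCoprime (D : ℤ) (q : ℤ) → ∀ v ∈ loc q (Std n), h v ∈ loc q (Std n) := by
    intro h D hD q hq v hv
    obtain ⟨b, hb, hbv⟩ := hv
    refine ⟨D * b, hq.mul_left hb, ?_⟩
    have := hD _ hbv
    rwa [map_zsmul, smul_smul] at this
  obtain ⟨D, hD, h1⟩ := key g
  obtain ⟨E, hE, h2⟩ := key g⁻¹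
  refine ⟨D * E, Nat.mul_pos hD hE, fun q hq => ?_⟩
  push_cast at hq
  have hq1 : IsCoprime (D : ℤ) (q : ℤ) := IsCoprime.of_mul_left_left hq
  have hq2 : IsCoprime (E : ℤ) (q : ℤ) := IsCoprime.of_mul_left_right hq
  rw [mem_Kq]
  ext v
  rw [mem_gsmul]
  constructor
  · intro h3
    have := key2 g D h1 q hq1 _ h3
    rwa [apply_inv] at this
  · intro h3
    exact key2 g⁻¹ E h2 q hq2 _ h3

end Pool.Agent.W919.EF
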