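import Pool.Agent.W919.EF.Coc
import Pool.Agent.H418R3.EF.Fin
import Pool.Agent.H418R3.EF.C.Frame
import Pool.Agent.H418R3.EF.C.Glue
import Pool.Agent.H418R3.EF.C.Iso
import Pool.Agent.H418R3.EF.C.Std

set_option autoImplicit false

/-! Isomorphism of torsion-free abelian groups of rank `n` is essentially free. -/

namespace Pool.Agent.W919.EF

open Pool.Agent.H418R3.EF
open scoped Pointwise

variable {n : ℕ}

instance : Countable (V n) := inferInstanceAs (Countable (Fin n → ℚ))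

instance instCountEnd : Countable (Module.End ℚ (V n)) := by
  have : Function.Injective (fun (f : Module.End ℚ (V n)) (i : Fin n) =>
      f (Pi.single i 1)) := by
    intro f g h
    refine (Pi.basisFun ℚ (Fin n)).ext fun i => ?_
    rw [Pi.basisFun_apply]
    exact congrFun h i
  exact this.countable

instance instCountSub : Countable (Submodule ℚ (Module.End ℚ (V n))) := by
  have : Function.Surjective (fun S : Finset (Module.End ℚ (V n)) =>
      Submodule.span ℚ (S : Set (Module.End ℚ (V n)))) := by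
    intro W
    obtain ⟨S, hS⟩ := IsNoetherian.noetherian W
    exact ⟨S, hS⟩
  exact this.countable

instance instCountAlg : Countable (Subalgebra ℚ (Module.End ℚ (V n))) :=
  (Subalgebra.toSubmodule_injective (R := ℚ) (A := Module.End ℚ (V n))).countable

/-- the algebra of quasi-endomorphisms -/
def DA (A : AddSubgroup (V n)) : Subalgebra ℚ (Module.End ℚ (V n)) where
  carrier := {f | ∃ k : ℤ, k ≠ 0 ∧ ∀ v ∈ A, k • f v ∈ A}
  mul_mem' := by
    rintro f g ⟨k, hk, h1⟩ ⟨l, hl, h2⟩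
    refine ⟨k * l, mul_ne_zero hk hl, fun v hv => ?_⟩
    have h3 := h1 _ (h2 _ hv)
    rw [map_zsmul, smul_smul] at h3
    exact h3
  add_mem' := by
    rintro f g ⟨k, hk, h1⟩ ⟨l, hl, h2⟩
    refine ⟨k * l, mul_ne_zero hk hl, fun v hv => ?_⟩
    rw [LinearMap.add_apply, smul_add]
    refine A.add_mem ?_ ?_
    · rw [mul_comm, mul_smul]
      exact A.zsmul_mem (h1 v hv) _
    · rw [mul_smul]
      exact A.zsmul_mem (h2 v hv) _
  algebraMap_mem' := by
    intro r
    refine ⟨r.den, by exact_mod_cast r.den_nz, fun v hv => ?_⟩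
    have : (r.den : ℤ) • (algebraMap ℚ (Module.End ℚ (V n)) r) v = r.num • v := by
      rw [Module.algebraMap_end_apply, ← Int.cast_smul_eq_zsmul ℚ, ← Int.cast_smul_eq_zsmul ℚ,
        smul_smul]
      congr 1
      push_cast
      rw [mul_comm]
      exact Rat.mul_den_eq_num r
    rw [this]
    exact A.zsmul_mem hv _

theorem mem_DA {A : AddSubgroup (V n)} {f : Module.End ℚ (V n)} :
    f ∈ DA A ↔ ∃ k : ℤ, k ≠ 0 ∧ ∀ v ∈ A, k • f v ∈ A := Iff.rfl

/-- the endomorphism with the given integral matrix -/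
noncomputable def ψ (n : ℕ) : (Fin n → Fin n → ℤ) →+ Module.End ℚ (V n) where
  toFun w := (Pi.basisFun ℚ (Fin n)).constr ℚ (fun i j => (w i j : ℚ))
  map_zero' := by
    refine (Pi.basisFun ℚ (Fin n)).ext fun i => ?_
    rw [Module.Basis.constr_basis]
    funext j
    simp
  map_add' := by
    intro a b
    refine (Pi.basisFun ℚ (Fin n)).ext fun i => ?_
    rw [LinearMap.add_apply, Module.Basis.constr_basis, Module.Basis.constr_basis,
      Module.Basis.constr_basis]
    funext j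
    simp

theorem exists_ψ (f : Module.End ℚ (V n)) (hf : ∀ v ∈ Std n, f v ∈ Std n) : ∃ w, ψ n w = f := by
  have h1 : ∀ i : Fin n, f (Pi.single i 1) ∈ Std n := by
    intro i
    refine hf _ fun j => ?_
    by_cases hij : j = i
    · subst hij; exact ⟨1, by simp⟩
    · exact ⟨0, by simp [hij]⟩
  choose w hw using h1
  refine ⟨w, (Pi.basisFun ℚ (Fin n)).ext fun i => ?_⟩
  change (Pi.basisFun ℚ (Fin n)).constr ℚ (fun i j => (w i j : ℚ)) _ = _
  rw [Module.Basis.constr_basis, Pi.basisFun_apply]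
  funext j
  exact (hw i j).symm

theorem cover (A : Sn n) : ∃ m : ℕ, A ∈ PD' (DA A.1) (m + 1) := by
  classical
  have hfg : ((DA A.1).toSubmodule.toAddSubgroup.comap (ψ n)).FG := by
    have h := IsNoetherian.noetherian
      (AddSubgroup.toIntSubmodule ((DA A.1).toSubmodule.toAddSubgroup.comap (ψ n)))
    rw [Submodule.fg_iff_addSubgroup_fg] at h
    simpa using h
  obtain ⟨T, hT⟩ := hfg
  have h1 : ∀ t ∈ T, ∃ k : ℤ, k ≠ 0 ∧ ∀ v ∈ A.1, k • ψ n t v ∈ A.1 := by
    intro t ht
    have h2 : t ∈ AddSubgroup.closure (T : Set (Fin n → Fin n → ℤ)) :=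
      AddSubgroup.subset_closure ht
    rw [hT] at h2
    exact h2
  choose! k hk hk2 using h1
  have hprod : (∏ t ∈ T, k t) ≠ 0 := Finset.prod_ne_zero_iff.2 hk
  have h3 : ∀ w ∈ AddSubgroup.closure (T : Set (Fin n → Fin n → ℤ)),
      ∀ v ∈ A.1, (∏ t ∈ T, k t) • ψ n w v ∈ A.1 := by
    intro w hw
    induction hw using AddSubgroup.closure_induction with
    | mem t ht =>
      intro v hv
      rw [← Finset.mul_prod_erase T k ht, mul_comm, mul_smul]
      exact A.1.zsmul_mem (hk2 t ht v hv) _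
    | zero =>
      intro v _
      rw [map_zero, LinearMap.zero_apply, smul_zero]
      exact A.1.zero_mem
    | add x y _ _ hx hy =>
      intro v hv
      rw [map_add, LinearMap.add_apply, smul_add]
      exact A.1.add_mem (hx v hv) (hy v hv)
    | neg x _ hx =>
      intro v hv
      rw [map_neg, LinearMap.neg_apply, smul_neg]
      exact A.1.neg_mem (hx v hv)
  obtain ⟨m, hm⟩ := Nat.exists_eq_succ_of_ne_zero (Int.natAbs_ne_zero.2 hprod)
  refine ⟨m, fun f => Iff.rfl, fun f hf hstd v hv => ?_⟩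
  obtain ⟨w, rfl⟩ := exists_ψ f hstd
  have hw : w ∈ AddSubgroup.closure (T : Set (Fin n → Fin n → ℤ)) := by
    rw [hT]; exact hf
  have h4 := h3 w hw v hv
  have h5 : ((m + 1 : ℕ) : ℤ) = (((∏ t ∈ T, k t).natAbs : ℕ) : ℤ) := by rw [hm]
  rw [h5]
  rcases Int.natAbs_eq (∏ t ∈ T, k t) with h6 | h6
  · rw [← h6]; exact h4
  · have : (((∏ t ∈ T, k t).natAbs : ℕ) : ℤ) = - ∏ t ∈ T, k t := by omega
    rw [this, neg_smul]; exact A.1.neg_mem h4

theorem hasCoc_univ (hStd : TaskStd) (hGlue : TaskGlue) (n : ℕ) :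
    HasCoc (GQ n) (Set.univ : Set (Sn n)) := by
  obtain ⟨hc, _, hact, _, hmem⟩ := hStd n
  have hPm : ∀ i : Subalgebra ℚ (Module.End ℚ (V n)) × ℕ,
      MeasurableSet (PD' i.1 (i.2 + 1)) := by
    intro i
    obtain ⟨Γ, _, _, _, ℓ, _, _, _, h4⟩ := hasCoc_PD i.1 hStd (i.2 + 1) (Nat.succ_ne_zero _)
    have : PD' i.1 (i.2 + 1) = ⋃ k : ℕ, {x | x ∈ PD' i.1 (i.2 + 1) ∧ ℓ x = k} := by
      ext x
      simp
    rw [this]
    exact MeasurableSet.iUnion fun k => h4 k
  exact hGlue (GQ n) (Sn n) hact (Subalgebra ℚ (Module.End ℚ (V n)) × ℕ)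
    (fun i => PD' i.1 (i.2 + 1)) hPm
    (fun i => hasCoc_PD i.1 hStd (i.2 + 1) (Nat.succ_ne_zero _)) (fun A => by
      obtain ⟨m, hm⟩ := cover A
      exact ⟨(DA A.1, m), 1, by rw [one_smul]; exact hm⟩)

theorem main (hFrame : TaskFrame) (hGlue : TaskGlue) (hIso : TaskIso) (hStd : TaskStd) (n : ℕ) :
    EssFree (IsoRel n) := by
  obtain ⟨c1, c2, c3, c4, c5⟩ := hStd n
  have h := hFrame (GQ n) (Sn n) c3 Set.univ MeasurableSet.univ (hasCoc_univ hStd hGlue n)
  refine essFree_transfer (MeasurableEquiv.Set.univ (Sn n)) _ _ ?_ h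
  intro x y
  rw [hIso n]
  exact Iff.rfl

end Pool.Agent.W919.EF
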